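import Mathlib

namespace Pool.Agent.H.MP_d5772f_al

open Classical in
theorem wreath (H : Type) [Group H] [Finite H] (T : Subgroup H) (hT : IsPGroup 2 T)
    (hodd : ¬ 2 ∣ T.index) (g : H) (hg : ∀ c ∈ T, ¬ Odd (orderOf (g * c))) :
    ¬ (∀ (G : Type) [Group G] [Finite G] (T : Sylow 2 G) (t : G),
      t ∈ (T : Subgroup G) →
      (∀ x ∈ (T : Subgroup G), x * t = t * x) →
      orderOf t = 2 →
      ∀ g : G, ∃ c ∈ Subgroup.centralizer ({t} : Set G), Odd (orderOf (g * c))) := by
  intro h
  let G := ((H ⧸ T) → ℤˣ) ⋊[mulAutArrow] H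
  haveI : Finite G := Finite.of_equiv _ SemidirectProduct.equivProd.symm
  let P : Subgroup G := T.comap SemidirectProduct.rightHom
  have hP : IsPGroup 2 P := by
    refine hT.comap_of_ker_isPGroup _ ?_
    rintro ⟨x, hx⟩
    rw [← SemidirectProduct.range_inl_eq_ker_rightHom] at hx
    obtain ⟨v, rfl⟩ := hx
    refine ⟨1, Subtype.ext ?_⟩
    change (SemidirectProduct.inl v : G) ^ 2 ^ 1 = 1
    rw [← map_pow]
    have : v ^ 2 ^ 1 = 1 := by ext x; simp
    rw [this, map_one]
  have hi : ¬ 2 ∣ P.index := by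
    rwa [Subgroup.index_comap_of_surjective _ SemidirectProduct.rightHom_surjective]
  let e : (H ⧸ T) → ℤˣ := fun x => if x = ((1 : H) : H ⧸ T) then -1 else 1
  have key : ∀ c : G, c * SemidirectProduct.inl e = SemidirectProduct.inl e * c ↔ c.right ∈ T := by
    intro c
    have h1 : c * SemidirectProduct.inl e = SemidirectProduct.inl e * c ↔
        mulAutArrow c.right e = e := by
      rw [SemidirectProduct.ext_iff]
      change (c.left * mulAutArrow c.right e = e * mulAutArrow (1 : H) c.left ∧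
        c.right * 1 = 1 * c.right) ↔ _
      rw [map_one, MulAut.one_apply, mul_comm c.left, mul_left_inj, mul_one, one_mul]
      simp
    have h2 : ∀ a : H, a • ((1 : H) : H ⧸ T) = ((1 : H) : H ⧸ T) ↔ a ∈ T := fun a => by
      change ((a * 1 : H) : H ⧸ T) = _ ↔ _
      rw [QuotientGroup.eq]; simp
    rw [h1]
    constructor
    · intro h3
      have h4 : e (c.right⁻¹ • ((1 : H) : H ⧸ T)) = e ((1 : H) : H ⧸ T) := congrFun h3 _
      rw [← inv_mem_iff, ← h2]
      by_contra h5
      simp only [e, if_neg h5, if_pos] at h4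
      exact absurd h4 (by decide)
    · intro h3
      funext x
      change e (c.right⁻¹ • x) = e x
      simp only [e, inv_smul_eq_iff, (h2 _).2 h3]
  obtain ⟨c, hc, ho⟩ := h G (hP.toSylow hi) (SemidirectProduct.inl e)
    (by change SemidirectProduct.rightHom (SemidirectProduct.inl e : G) ∈ T
        simp)
    (fun x hx => (key x).2 hx)
    (by
      rw [orderOf_injective _ SemidirectProduct.inl_injective]
      refine orderOf_eq_prime (by ext x; simp) fun h1 => ?_
      have := congrFun h1 ((1 : H) : H ⧸ T)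
      simp [e] at this)
    (SemidirectProduct.inr g)
  have hc' : c.right ∈ T := (key c).1 (Subgroup.mem_centralizer_singleton_iff.1 hc)
  refine hg _ hc' (ho.of_dvd_nat ?_)
  have := orderOf_map_dvd SemidirectProduct.rightHom (SemidirectProduct.inr g * c : G)
  exact this

instance : Fact (Nat.Prime 37) := ⟨by norm_num⟩

abbrev M := Matrix (Fin 2) (Fin 2) (ZMod 37)

abbrev S := Matrix.SpecialLinearGroup (Fin 2) (ZMod 37)

theorem card_S : Nat.card S = 50616 := by
  have h1 : Nat.card (GL (Fin 2) (ZMod 37)) = 50616 * 36 := by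
    rw [Matrix.card_GL_field]; simp [Fin.prod_univ_two]
  have h2 := Subgroup.card_mul_index
    (Matrix.GeneralLinearGroup.det : GL (Fin 2) (ZMod 37) →* (ZMod 37)ˣ).ker
  rw [Subgroup.index_ker, MonoidHom.range_eq_top.2 Matrix.GeneralLinearGroup.det_surjective,
    Subgroup.card_top, Nat.card_units, Nat.card_zmod, h1] at h2
  have h3 : Nat.card S = Nat.card (Matrix.GeneralLinearGroup.det :
      GL (Fin 2) (ZMod 37) →* (ZMod 37)ˣ).ker := by
    refine Nat.card_congr ((Equiv.ofInjective _ Matrix.SpecialLinearGroup.toGL_injective).trans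
      (Equiv.setCongr ?_))
    rw [Matrix.SpecialLinearGroup.range_toGL]; rfl
  omega

def q : Fin 8 → M := ![!![1, 0; 0, 1], !![-1, 0; 0, -1], !![6, 0; 0, -6], !![-6, 0; 0, 6],
  !![0, 1; -1, 0], !![0, -1; 1, 0], !![0, 6; 6, 0], !![0, -6; -6, 0]]

theorem q_mul : ∀ i j, ∃ k, q k = q i * q j := by decide +kernel

theorem q_pow : ∀ i, q i * (q i * (q i * q i)) = 1 := by decide +kernel

theorem q_det : ∀ i, (q i).det = 1 := by
  simp only [Matrix.det_fin_two]
  decide +kernel

theorem q_inj : Function.Injective q := by decide +kernel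

def sq (a : M) : M := a * a

theorem q_bad : ∀ i, sq (sq (sq (sq (!![2, 10; 14, 15] * q i))) * (!![2, 10; 14, 15] * q i)) = -1 := by
  decide +kernel

def T : Subgroup S where
  carrier := {a | ∃ i, q i = a.1}
  mul_mem' := fun {a b} ⟨i, hi⟩ ⟨j, hj⟩ => by
    obtain ⟨k, hk⟩ := q_mul i j
    exact ⟨k, by rw [hk, hi, hj]; rfl⟩
  one_mem' := ⟨0, by change q 0 = 1; decide +kernel⟩
  inv_mem' := fun {a} ⟨i, hi⟩ => by
    have h4 : a * (a * (a * a)) = 1 := Subtype.ext (by have := q_pow i; rwa [hi] at this)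
    obtain ⟨k, hk⟩ := q_mul i i
    obtain ⟨l, hl⟩ := q_mul i k
    exact ⟨l, by rw [inv_eq_of_mul_eq_one_right h4, hl, hk, hi]; rfl⟩

theorem card_T : Nat.card T = 8 := by
  have : Nat.card (Fin 8) = Nat.card T := Nat.card_congr (Equiv.ofBijective
    (fun i => (⟨⟨q i, q_det i⟩, i, rfl⟩ : T))
    ⟨fun i j h => q_inj (congrArg (fun a : T => a.1.1) h),
      fun ⟨a, i, hi⟩ => ⟨i, Subtype.ext (Subtype.ext hi)⟩⟩)
  rw [← this]; simp

theorem main :
    ¬ (∀ (G : Type) [Group G] [Finite G] (T : Sylow 2 G) (t : G),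
      t ∈ (T : Subgroup G) →
      (∀ x ∈ (T : Subgroup G), x * t = t * x) →
      orderOf t = 2 →
      ∀ g : G, ∃ c ∈ Subgroup.centralizer ({t} : Set G), Odd (orderOf (g * c))) := by
  refine wreath S T (IsPGroup.of_card (n := 3) card_T) ?_
    ⟨!![2, 10; 14, 15], by rw [Matrix.det_fin_two]; decide +kernel⟩ fun c hc ho => ?_
  · have := T.card_mul_index
    rw [card_T, card_S] at this
    omega
  · generalize hx : (⟨!![2, 10; 14, 15], _⟩ * c : S) = x at ho
    obtain ⟨i, hi⟩ := hc
    have h1 : x.1 ^ 18 = -1 := by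
      have h0 : x.1 = !![2, 10; 14, 15] * q i := by rw [← hx, hi]; rfl
      rw [← q_bad i, ← h0]
      simp only [sq, ← pow_two, ← pow_mul, ← pow_succ]
      norm_num
    have h2 : x.1 ^ orderOf x = 1 := congrArg Subtype.val (pow_orderOf_eq_one x)
    have h3 : (x.1 ^ 18) ^ orderOf x = 1 := by rw [← pow_mul, mul_comm, pow_mul, h2, one_pow]
    rw [h1, ho.neg_one_pow] at h3
    exact absurd h3 (by decide +kernel)

end Pool.Agent.H.MP_d5772f_al
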